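import Pool.Agent.helper797_it.PJ2
import Pool.Agent.helper797_it.PG6

/-!
# If the iterated `C*` are strictly decreasing, the axiom of choice fails in their intersection
-/

set_option autoImplicit false

namespace Pool.Agent.Results.MP_2817f0_lc.NoChoiceInLimit

open Pool.Agent.W868 Pool.Agent.helper797_it

/-- Let `N` be a transitive model of ZFC: a set or an arbitrary class of sets, for instance the
universe of all sets (which satisfies `IsZFC`, first part). Let `C*0 = N` and let `C*(n+1)` be the
inner model `C*` computed in `C*n`. If `C*(n+1) ≠ C*n` for all `n` then the axiom of choice fails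
in the intersection `C*ω`: some `x ∈ C*ω` whose elements are nonempty and pairwise disjoint has no
choice set in `C*ω`. In particular `C*ω` is not a model of ZFC. -/
theorem result : IsZFC (Set.univ : Set ZFSet.{0}) ∧
    ∀ N : Set ZFSet.{0}, IsZFC N → (∀ n, Cn N (n + 1) ≠ Cn N n) →
      ∃ x ∈ Cw N, (∀ y ∈ x, ∃ z, z ∈ y) ∧
        (∀ y ∈ x, ∀ y' ∈ x, ∀ z, z ∈ y → z ∈ y' → y = y') ∧
        ¬ ∃ c ∈ Cw N, ∀ y ∈ x, ∃! z, z ∈ y ∧ z ∈ c := by
  refine ⟨isZFC_univ, fun N hN h => ?_⟩
  by_contra hc
  apply not_isZFC_Cw hN h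
  refine { toIsZF := isZF_Cw hN, choice := ?_ }
  intro x hx h1 h2
  by_contra h3
  exact hc ⟨x, hx, h1, h2, h3⟩

end Pool.Agent.Results.MP_2817f0_lc.NoChoiceInLimit
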